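import Mathlib
import Pool.Agent.Helper446.Defs
import Pool.Agent.U35.SJ.Final

set_option autoImplicit false

/-!
Problem MP_377195_lc, question Q1, answered positively: below every c.e. set `E` which is not
strongly jump traceable there are two c.e. sets which are incomparable for SJT reducibility.

Outline of the proof. Fix an order function `h` such that `E` has no c.e. trace for its jump
with the bound `h`. The requirements (the jump of `A` has no trace given by the `e`-th c.e. operator
relative to `B` with a certain slowly growing bound, and the same with `A` and `B` exchanged) are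
put on the levels of a tree. A node has modules, one for each argument `m` of the jump of `E`. A
module waits for a computation of the jump of `E` at `m`, and then makes a new value of the jump
of `A`, with a marker above the use of the computation. If this value appears in the trace, the
value of the jump of `E` is certified, and lower priority nodes are initialised to protect the
trace. If `E` changes below the use, the marker goes into `A` and the module starts again. If a
trace took all the values, then the certified values would be a trace for the jump of `E`, or one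
of the components of the trace would get too many elements. The markers only go into `A` or
`B` when a smaller number goes into `E`, so both sets are computable from `E`. The nodes work with
the true stages of the enumeration of `E`, and the modules which change infinitely often give the
outcomes of the nodes.
-/

namespace Pool.Agent.Results.MP_377195_lc.SJTIncomparable

open Pool.Agent.Helper446.Defs (chi)

/-- `J` is a universal function relative to `X`: it is partial computable relative to `X`, and
every function `ψ` that is partial computable relative to `X` has the form `n ↦ J (p n)` for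
some computable function `p`. -/
def IsUniv (X : Set ℕ) (J : ℕ →. ℕ) : Prop :=
  Nat.RecursiveIn {chi X} J ∧
    ∀ ψ : ℕ →. ℕ, Nat.RecursiveIn {chi X} ψ → ∃ p : ℕ → ℕ, Computable p ∧ ∀ n, ψ n = J (p n)

/-- The sets `T n` are computably enumerable relative to `X`, uniformly in `n`: the set of the
pairs `⟨n, v⟩` with `v ∈ T n` is the domain of a function that is partial computable relative
to `X`. -/
def UnifCE (X : Set ℕ) (T : ℕ → Set ℕ) : Prop :=
  ∃ ψ : ℕ →. ℕ, Nat.RecursiveIn {chi X} ψ ∧ ∀ n v, v ∈ T n ↔ (ψ (Nat.pair n v)).Dom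

/-- Order functions: computable, nondecreasing, unbounded functions with positive values. -/
structure IsOrder (h : ℕ → ℕ) : Prop where
  comp : Computable h
  mono : Monotone h
  unb : ∀ b, ∃ n, b ≤ h n
  pos : ∀ n, 0 < h n

/-- `A ≤_SJT B`, where `J X` is the universal function relative to `X`: for every order function `h`
there is a sequence of finite sets `T n` with at most `h n` elements, uniformly c.e. relative to
`B`, such that the value of `J A` at `n`, if it is defined, is in `T n`. -/
def SJTLe (J : Set ℕ → ℕ →. ℕ) (A B : Set ℕ) : Prop :=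
  ∀ h : ℕ → ℕ, IsOrder h → ∃ T : ℕ → Set ℕ, UnifCE B T ∧
    (∀ n, (T n).Finite ∧ (T n).ncard ≤ h n) ∧ ∀ n v, v ∈ J A n → v ∈ T n

open Pool.Agent.U35.SJ in
theorem isUniv_J0 (X : Set ℕ) : IsUniv X (J0 X) := by
  refine ⟨rec_J0 X, fun ψ hψ => ?_⟩
  obtain ⟨c, hc⟩ := univ_J0 hψ
  refine ⟨fun n => Nat.pair c n, by fun_prop, fun n => ?_⟩
  ext v
  rw [mem_J0, hc]

open Pool.Agent.U35.SJ in
theorem sjtLe_iff (J : Set ℕ → ℕ →. ℕ) (A B : Set ℕ) :
    SJTLe J A B ↔ TrB (fun n v => v ∈ J A n) B := by
  constructor
  · intro h1 h ho
    obtain ⟨T, ⟨ψ, h2, h3⟩, h4, h5⟩ := h1 h ⟨ho.comp, ho.mono, ho.unb,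
      fun n => lt_of_lt_of_le ho.pos (ho.mono (Nat.zero_le n))⟩
    exact ⟨T, uce_of_dom h2 h3, h4, h5⟩
  · intro h1 h ho
    obtain ⟨T, h2, h4, h5⟩ := h1 h ⟨ho.comp, ho.mono, ho.unb, ho.pos 0⟩
    exact ⟨T, dom_of_uce h2, h4, h5⟩

open Pool.Agent.U35.SJ in
theorem sjtLe_iff_SJT {J : Set ℕ → ℕ →. ℕ} (hJ : ∀ X, IsUniv X (J X)) (A B : Set ℕ) :
    SJTLe J A B ↔ SJT A B := by
  rw [sjtLe_iff, sjt_iff]
  constructor
  · obtain ⟨p, hp, h1⟩ := (hJ A).2 (J0 A) (rec_J0 A)
    refine TrB.comp hp fun n v hv => ?_
    rw [← h1, mem_J0]
    exact hv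
  · obtain ⟨c, hc⟩ := univ_J0 (hJ A).1
    refine TrB.comp (p := fun n => Nat.pair c n) (by fun_prop) fun n v hv => ?_
    exact (hc n v).2 hv

/-- There is a choice of universal functions, and for every such choice: if `E` is a c.e. set with
`E ≰_SJT ∅`, then there are c.e. sets `A, B ≤_T E` with `A ≰_SJT B` and `B ≰_SJT A`. -/
theorem result :
    (∃ J : Set ℕ → ℕ →. ℕ, ∀ X, IsUniv X (J X)) ∧
    ∀ J : Set ℕ → ℕ →. ℕ, (∀ X, IsUniv X (J X)) →
      ∀ E : Set ℕ, REPred (fun x => x ∈ E) → ¬ SJTLe J E ∅ →
        ∃ A B : Set ℕ, REPred (fun x => x ∈ A) ∧ REPred (fun x => x ∈ B) ∧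
          TuringReducible (chi A) (chi E) ∧ TuringReducible (chi B) (chi E) ∧
          ¬ SJTLe J A B ∧ ¬ SJTLe J B A := by
  refine ⟨⟨Pool.Agent.U35.SJ.J0, isUniv_J0⟩, fun J hJ E hE hn => ?_⟩
  rw [sjtLe_iff_SJT hJ] at hn
  obtain ⟨A, B, h1, h2, h3, h4, h5, h6⟩ := Pool.Agent.U35.SJ.main_thm E hE hn
  refine ⟨A, B, h1, h2, h3, h4, ?_, ?_⟩
  · rw [sjtLe_iff_SJT hJ]; exact h5
  · rw [sjtLe_iff_SJT hJ]; exact h6

end Pool.Agent.Results.MP_377195_lc.SJTIncomparable
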